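import Pool.Agent.Helper75.HD.Gr

/-!
# `𝔡(≠*_{∅})` can be different from all the numbers `𝔡^𝔠_θ`

This answers Q1 in full: ZFC does not prove that for each of the three relations `R` there is a
cardinal `θ ≤ 𝔠` with `𝔡(R_{∅}) = 𝔡^𝔠_θ`; the relation `R = ≠*` fails in a forcing extension, for
all `θ` at the same time. (The starting library has this for the single value `θ = 𝔟(≠*)`.)

The forcing. Let `κ = ℶ_{ω₁}`, divided into the levels `L_i`, `i < ω₁`, of size `ℶ_{i+1}`, and
`|J| = (2 ^ κ)⁺`. A condition is a pair: a partial function `p` from `J × κ` to `κ` which maps `J × L_i`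
to `L_i`, such that `p` has at most `ℶ_i` elements on the levels `≤ i`, for every `i < ω₁`; and a set of
positive measure in `2 ^ (κ × ω)`. The levels `≤ i` have antichains of size at most `ℶ_{i+1}`, and the
levels `> i` allow the union of `ℶ_{i+1}` many conditions; so, for each `i`, each of `ℶ_{i+1}` many
dense open sets is captured by a small predense set below one condition, and even all `i < ω₁` can be
treated at the same time (`capture`, one application of Zorn's lemma). Therefore `κ` stays a cardinal,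
`𝔠 = 𝔟(≠*) = κ`, and for every function `f` from `𝔠` to `ω ^ ω` of the extension there is one of the
`(2 ^ κ)^V` many functions given by the random reals and the ground model, which evades `f x` for
every `x`. On the other hand the generic functions from `L_i` to `L_i` show that no `(2 ^ κ)^V` many
functions from `κ` to `θ` are dominating, for every `θ ≤ κ`.

The forcing language is that of `Pool.Agent.TH773.PSet.Defs`: a sentence is a regular open
subset of the forcing `P`, and `p ∈ φ` says that `p` forces `φ`.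
-/

set_option autoImplicit false

open Cardinal Pool.Agent.Helper75.HD
open Pool.Agent.R592.Hd (bNe dEmpty dHigh)

namespace Pool.Agent.Results.MP_7b1404_lc.EveryCardinal

/-- It is consistent that `𝔡(≠*_{∅}) ≠ 𝔡^𝔠_θ` for every infinite cardinal `θ ≤ 𝔠`.

(1) For some `κ` and `ν` some nonempty forcing forces the sentence `Model κ ν`.
(2) The meaning of the sentence `Model κ ν` (its value over the trivial forcing) is
`κ = 𝔠 = 𝔟(≠*)`, `𝔡(≠*_{∅}) ≤ ν`, and `ν < 𝔡^𝔠_θ` for every infinite cardinal `θ ≤ 𝔠`.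
(3) So it implies that `𝔡(≠*_{∅}) ≠ 𝔡^𝔠_θ` for every infinite cardinal `θ ≤ 𝔠`. -/
theorem result :
    (∃ (κ ν : Cardinal.{0}) (P : Type) (_ : Preorder P), Nonempty P ∧
      ∀ p : P, p ∈ Model.{0, 0} P κ ν) ∧
    (∀ (κ ν : Cardinal.{0}) (p : Unit), p ∈ Model.{0, 0} Unit κ ν ↔
      (κ = 𝔠 ∧ bNe = 𝔠 ∧ dEmpty ≤ ν ∧
        ∀ θ : Cardinal.{0}, ℵ₀ ≤ θ → θ ≤ 𝔠 → ν < dHigh 𝔠 θ)) ∧
    (∀ (κ ν : Cardinal.{0}) (p : Unit), p ∈ Model.{0, 0} Unit κ ν →
      ∀ θ : Cardinal.{0}, ℵ₀ ≤ θ → θ ≤ 𝔠 → dEmpty ≠ dHigh 𝔠 θ) := by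
  refine ⟨exists_model, fun κ ν p => unit_model, fun κ ν p hp θ h1 h2 => ?_⟩
  obtain ⟨-, -, h3, h4⟩ := unit_model.1 hp
  exact (h3.trans_lt (h4 θ h1 h2)).ne

end Pool.Agent.Results.MP_7b1404_lc.EveryCardinal
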